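import Mathlib

set_option autoImplicit false

/-!
# Bounded transversals: the random construction

Points: `ZMod p × ZMod p`; the sets are the vertical lines and large subsets of the non-vertical lines.
-/

namespace Pool.Agent.Y162.BT

open Finset

/-- at least half of the subsets of `N` have at least `|N| / 2` elements -/
theorem half_large {α : Type*} [DecidableEq α] (N : Finset α) :
    2 ^ N.card ≤ 2 * (N.powerset.filter (fun T => N.card ≤ 2 * T.card)).card := by
  have h1 : N.powerset.card = (N.powerset.filter (fun T => N.card ≤ 2 * T.card)).card +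
      (N.powerset.filter (fun T => ¬ N.card ≤ 2 * T.card)).card :=
    (Finset.card_filter_add_card_filter_not (s := N.powerset) (p := fun T => N.card ≤ 2 * T.card)).symm
  have h2 : (N.powerset.filter (fun T => ¬ N.card ≤ 2 * T.card)).card ≤
      (N.powerset.filter (fun T => N.card ≤ 2 * T.card)).card := by
    apply Finset.card_le_card_of_injOn (fun T => N \ T)
    · intro T hT
      have hT' := Finset.mem_filter.1 (Finset.mem_coe.1 hT)
      have hs := Finset.mem_powerset.1 hT'.1
      apply Finset.mem_coe.2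
      apply Finset.mem_filter.2
      refine ⟨Finset.mem_powerset.2 Finset.sdiff_subset, ?_⟩
      have := Finset.card_sdiff_add_card_eq_card hs
      have h3 := hT'.2
      show N.card ≤ 2 * (N \ T).card
      omega
    · intro T hT T' hT' h
      have hs := Finset.mem_powerset.1 (Finset.mem_filter.1 (Finset.mem_coe.1 hT)).1
      have hs' := Finset.mem_powerset.1 (Finset.mem_filter.1 (Finset.mem_coe.1 hT')).1
      have h' : N \ T = N \ T' := h
      rw [← Finset.sdiff_sdiff_eq_self hs, ← Finset.sdiff_sdiff_eq_self hs', h']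
  rw [Finset.card_powerset] at h1
  omega

section

variable (p : ℕ) [Fact p.Prime] (C : ℕ)

/-- the allowed traces -/
def AA : Finset (Finset (ZMod p)) := univ.filter (fun T => p ≤ 4 * T.card)

/-- points of the `k`-th line hit by the graph of `g` -/
def MM (g : ZMod p → Fin C → ZMod p) (k : ZMod p × ZMod p) : Finset (ZMod p) :=
  univ.filter (fun x => ∃ i, g x i = k.1 * x + k.2)

theorem miss_card (M : Finset (ZMod p)) (hM : M.card ≤ 2 * C) (hp : 4 * C ≤ p) :
    2 ^ p ≤ 2 ^ (2 * C + 1) * ((AA p).filter (fun T => Disjoint T M)).card := by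
  have hc : Fintype.card (ZMod p) = p := ZMod.card p
  have h1 := half_large (Mᶜ)
  have h2 : (Mᶜ.powerset.filter (fun T => Mᶜ.card ≤ 2 * T.card)).card ≤
      ((AA p).filter (fun T => Disjoint T M)).card := by
    apply Finset.card_le_card
    intro T hT
    have hT' := Finset.mem_filter.1 hT
    have hs := Finset.mem_powerset.1 hT'.1
    refine Finset.mem_filter.2 ⟨Finset.mem_filter.2 ⟨Finset.mem_univ _, ?_⟩, ?_⟩
    · have h3 := hT'.2
      rw [Finset.card_compl, hc] at h3
      omega
    · exact Finset.disjoint_left.2 (fun a ha hb => (Finset.mem_compl.1 (hs ha)) hb)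
  have h3 : Mᶜ.card = p - M.card := by rw [Finset.card_compl, hc]
  have h4 : p ≤ 2 * C + Mᶜ.card := by omega
  calc 2 ^ p ≤ 2 ^ (2 * C + Mᶜ.card) := Nat.pow_le_pow_right (by norm_num) h4
    _ = 2 ^ (2 * C) * 2 ^ Mᶜ.card := by rw [pow_add]
    _ ≤ 2 ^ (2 * C) * (2 * ((AA p).filter (fun T => Disjoint T M)).card) :=
        Nat.mul_le_mul_left _ (h1.trans (Nat.mul_le_mul_left _ h2))
    _ = 2 ^ (2 * C + 1) * ((AA p).filter (fun T => Disjoint T M)).card := by ring

theorem sum_MM (g : ZMod p → Fin C → ZMod p) :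
    ∑ k : ZMod p × ZMod p, (MM p C g k).card ≤ C * (p * p) := by
  have hc : Fintype.card (ZMod p) = p := ZMod.card p
  have h1 : ∀ k : ZMod p × ZMod p, (MM p C g k).card ≤
      ∑ x : ZMod p, ∑ i : Fin C, if g x i = k.1 * x + k.2 then 1 else 0 := by
    intro k
    rw [MM, Finset.card_filter]
    apply Finset.sum_le_sum
    intro x _
    by_cases h : ∃ i, g x i = k.1 * x + k.2
    · rw [if_pos h]
      obtain ⟨i, hi⟩ := h
      calc 1 = (if g x i = k.1 * x + k.2 then 1 else 0) := by rw [if_pos hi]
        _ ≤ _ := Finset.single_le_sum (f := fun i => if g x i = k.1 * x + k.2 then 1 else 0)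
            (fun _ _ => Nat.zero_le _) (Finset.mem_univ i)
    · rw [if_neg h]; exact Nat.zero_le _
  calc ∑ k : ZMod p × ZMod p, (MM p C g k).card
      ≤ ∑ k : ZMod p × ZMod p, ∑ x : ZMod p, ∑ i : Fin C,
          (if g x i = k.1 * x + k.2 then 1 else 0) := Finset.sum_le_sum (fun k _ => h1 k)
    _ = ∑ x : ZMod p, ∑ i : Fin C, ∑ k : ZMod p × ZMod p,
          (if g x i = k.1 * x + k.2 then 1 else 0) := by
        rw [Finset.sum_comm]
        apply Finset.sum_congr rfl
        intro x _
        rw [Finset.sum_comm]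
    _ = ∑ x : ZMod p, ∑ i : Fin C, p := by
        apply Finset.sum_congr rfl
        intro x _
        apply Finset.sum_congr rfl
        intro i _
        rw [Fintype.sum_prod_type]
        have : ∀ m : ZMod p, ∑ b : ZMod p, (if g x i = m * x + b then 1 else 0) = 1 := by
          intro m
          rw [Finset.sum_eq_single (g x i - m * x)]
          · rw [if_pos (by ring)]
          · intro b _ hb
            rw [if_neg]
            intro h
            apply hb
            rw [h]; ring
          · intro h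
            exact absurd (Finset.mem_univ _) h
        rw [Finset.sum_congr rfl (fun m _ => this m)]
        simp [hc]
    _ = C * (p * p) := by
        simp [hc]
        ring

/-- few lines are hit often -/
theorem good_count (g : ZMod p → Fin C → ZMod p) :
    p * p ≤ 2 * (univ.filter (fun k : ZMod p × ZMod p => (MM p C g k).card ≤ 2 * C)).card := by
  have hc : Fintype.card (ZMod p) = p := ZMod.card p
  have h1 := sum_MM p C g
  have h2 : (2 * C + 1) * (univ.filter (fun k : ZMod p × ZMod p =>
      ¬ (MM p C g k).card ≤ 2 * C)).card ≤ ∑ k : ZMod p × ZMod p, (MM p C g k).card := by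
    calc (2 * C + 1) * (univ.filter (fun k : ZMod p × ZMod p => ¬ (MM p C g k).card ≤ 2 * C)).card
        = ∑ k ∈ univ.filter (fun k : ZMod p × ZMod p => ¬ (MM p C g k).card ≤ 2 * C), (2 * C + 1) := by
          rw [Finset.sum_const, smul_eq_mul, mul_comm]
      _ ≤ ∑ k ∈ univ.filter (fun k : ZMod p × ZMod p => ¬ (MM p C g k).card ≤ 2 * C),
            (MM p C g k).card := by
          apply Finset.sum_le_sum
          intro k hk
          have := (Finset.mem_filter.1 hk).2
          omega
      _ ≤ _ := Finset.sum_le_sum_of_subset (Finset.filter_subset _ _)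
  have h3 := Finset.card_filter_add_card_filter_not (s := (univ : Finset (ZMod p × ZMod p)))
    (p := fun k => (MM p C g k).card ≤ 2 * C)
  rw [Finset.card_univ, Fintype.card_prod, hc] at h3
  nlinarith

/-- the number of traces meeting `M` -/
theorem hit_card (M : Finset (ZMod p)) (hM : M.card ≤ 2 * C) (hp : 4 * C ≤ p) :
    (((AA p).filter (fun T => ¬ Disjoint T M)).card : ℝ) ≤
      ((AA p).card : ℝ) * (1 - (1 / 2) ^ (2 * C + 1)) := by
  have h1 := Finset.card_filter_add_card_filter_not (s := AA p) (p := fun T => Disjoint T M)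
  have h2 := miss_card p C M hM hp
  have h3 : (AA p).card ≤ 2 ^ p := by
    calc (AA p).card ≤ (univ : Finset (Finset (ZMod p))).card := Finset.card_le_card (Finset.filter_subset _ _)
      _ = 2 ^ p := by rw [Finset.card_univ, Fintype.card_finset, ZMod.card]
  have h4 : ((AA p).card : ℝ) ≤ 2 ^ (2 * C + 1) * (((AA p).filter (fun T => Disjoint T M)).card : ℝ) := by
    have : (AA p).card ≤ 2 ^ (2 * C + 1) * ((AA p).filter (fun T => Disjoint T M)).card := h3.trans h2
    exact_mod_cast this
  have h5 : (((AA p).filter (fun T => Disjoint T M)).card : ℝ) +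
      (((AA p).filter (fun T => ¬ Disjoint T M)).card : ℝ) = ((AA p).card : ℝ) := by
    exact_mod_cast h1
  have h6 : ((AA p).card : ℝ) * (1 / 2) ^ (2 * C + 1) ≤
      (((AA p).filter (fun T => Disjoint T M)).card : ℝ) := by
    have h7 : (0 : ℝ) < 2 ^ (2 * C + 1) := by positivity
    have h8 : ((1 : ℝ) / 2) ^ (2 * C + 1) = 1 / 2 ^ (2 * C + 1) := by
      rw [one_div, inv_pow, one_div]
    rw [h8, mul_one_div, div_le_iff₀ h7]
    linarith
  nlinarith

/-- counting the traces which are good for some `g` -/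
theorem main_count (hp : 4 * C ≤ p)
    (H : ∀ f : ZMod p × ZMod p → Finset (ZMod p), (∀ k, f k ∈ AA p) →
      ∃ g : ZMod p → Fin C → ZMod p, ∀ k, ¬ Disjoint (f k) (MM p C g k)) :
    (1 : ℝ) ≤ ((p : ℝ) ^ (2 * C) * (1 - (1 / 2) ^ (2 * C + 1)) ^ p) := by
  classical
  have hc : Fintype.card (ZMod p) = p := ZMod.card p
  have hp0 : 0 < p := (Fact.out : p.Prime).pos
  set δ : ℝ := (1 / 2) ^ (2 * C + 1) with hδ
  have hδ0 : 0 < δ := by positivity
  have hδ1 : δ ≤ 1 := pow_le_one₀ (by norm_num) (by norm_num)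
  have ha : 0 < (AA p).card := by
    apply Finset.card_pos.2
    refine ⟨univ, Finset.mem_filter.2 ⟨Finset.mem_univ _, ?_⟩⟩
    rw [Finset.card_univ, hc]; omega
  have h1 : Fintype.piFinset (fun _ : ZMod p × ZMod p => AA p) ⊆
      (univ : Finset (ZMod p → Fin C → ZMod p)).biUnion
        (fun g => Fintype.piFinset (fun k => (AA p).filter (fun T => ¬ Disjoint T (MM p C g k)))) := by
    intro f hf
    have hf' := Fintype.mem_piFinset.1 hf
    obtain ⟨g, hg⟩ := H f hf'
    refine Finset.mem_biUnion.2 ⟨g, Finset.mem_univ _, Fintype.mem_piFinset.2 (fun k => ?_)⟩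
    exact Finset.mem_filter.2 ⟨hf' k, hg k⟩
  have h2 := (Finset.card_le_card h1).trans Finset.card_biUnion_le
  have h3 : (((AA p).card : ℝ)) ^ (p * p) ≤ ∑ g : ZMod p → Fin C → ZMod p,
      ∏ k : ZMod p × ZMod p, (((AA p).filter (fun T => ¬ Disjoint T (MM p C g k))).card : ℝ) := by
    have e1 : (Fintype.piFinset (fun _ : ZMod p × ZMod p => AA p)).card = (AA p).card ^ (p * p) := by
      rw [Fintype.card_piFinset, Finset.prod_const, Finset.card_univ, Fintype.card_prod, hc]
    rw [e1] at h2
    have : (((AA p).card ^ (p * p) : ℕ) : ℝ) ≤ ((∑ g : ZMod p → Fin C → ZMod p,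
      (Fintype.piFinset (fun k => (AA p).filter (fun T => ¬ Disjoint T (MM p C g k)))).card : ℕ) : ℝ) := by
      exact_mod_cast h2
    push_cast at this
    refine this.trans (le_of_eq ?_)
    apply Finset.sum_congr rfl
    intro g _
    rw [Fintype.card_piFinset]
    push_cast
    rfl
  have h4 : ∀ g : ZMod p → Fin C → ZMod p,
      (∏ k : ZMod p × ZMod p, (((AA p).filter (fun T => ¬ Disjoint T (MM p C g k))).card : ℝ)) ^ 2 ≤
        (((AA p).card : ℝ) ^ (p * p)) ^ 2 * (1 - δ) ^ (p * p) := by
    intro g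
    have hle : ∀ k : ZMod p × ZMod p,
        (((AA p).filter (fun T => ¬ Disjoint T (MM p C g k))).card : ℝ) ≤
          ((AA p).card : ℝ) * (if (MM p C g k).card ≤ 2 * C then 1 - δ else 1) := by
      intro k
      split_ifs with h
      · exact hit_card p C _ h hp
      · rw [mul_one]
        exact_mod_cast Finset.card_le_card (Finset.filter_subset _ _)
    have h5 : ∏ k : ZMod p × ZMod p, (((AA p).filter (fun T => ¬ Disjoint T (MM p C g k))).card : ℝ) ≤
        ((AA p).card : ℝ) ^ (p * p) * (1 - δ) ^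
          (univ.filter (fun k : ZMod p × ZMod p => (MM p C g k).card ≤ 2 * C)).card := by
      calc ∏ k : ZMod p × ZMod p, (((AA p).filter (fun T => ¬ Disjoint T (MM p C g k))).card : ℝ)
          ≤ ∏ k : ZMod p × ZMod p, (((AA p).card : ℝ) *
              (if (MM p C g k).card ≤ 2 * C then 1 - δ else 1)) :=
            Finset.prod_le_prod (fun _ _ => Nat.cast_nonneg _) (fun k _ => hle k)
        _ = _ := by
            rw [Finset.prod_mul_distrib, Finset.prod_const, Finset.card_univ, Fintype.card_prod, hc,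
              Finset.prod_ite, Finset.prod_const, Finset.prod_const_one, mul_one]
    have h6 : 0 ≤ ∏ k : ZMod p × ZMod p,
        (((AA p).filter (fun T => ¬ Disjoint T (MM p C g k))).card : ℝ) :=
      Finset.prod_nonneg (fun _ _ => Nat.cast_nonneg _)
    calc _ ≤ (((AA p).card : ℝ) ^ (p * p) * (1 - δ) ^
          (univ.filter (fun k : ZMod p × ZMod p => (MM p C g k).card ≤ 2 * C)).card) ^ 2 :=
          pow_le_pow_left₀ h6 h5 2
      _ = (((AA p).card : ℝ) ^ (p * p)) ^ 2 * (1 - δ) ^
          (2 * (univ.filter (fun k : ZMod p × ZMod p => (MM p C g k).card ≤ 2 * C)).card) := by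
          rw [mul_pow, ← pow_mul (1 - δ), Nat.mul_comm 2 (Finset.card _)]
      _ ≤ _ := by
          apply mul_le_mul_of_nonneg_left _ (by positivity)
          exact pow_le_pow_of_le_one (by linarith) (by linarith) (good_count p C g)
  -- conclusion
  set A : ℝ := ((AA p).card : ℝ) ^ (p * p) with hA
  have hA0 : 0 < A := by
    have : (0 : ℝ) < ((AA p).card : ℝ) := by exact_mod_cast ha
    positivity
  set E : ℝ := Real.sqrt ((1 - δ) ^ (p * p)) with hE
  have hE2 : E ^ 2 = (1 - δ) ^ (p * p) := Real.sq_sqrt (pow_nonneg (by linarith) _)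
  have h7 : ∀ g : ZMod p → Fin C → ZMod p,
      ∏ k : ZMod p × ZMod p, (((AA p).filter (fun T => ¬ Disjoint T (MM p C g k))).card : ℝ) ≤ A * E := by
    intro g
    apply le_of_sq_le_sq _ (mul_nonneg hA0.le (Real.sqrt_nonneg _))
    rw [mul_pow, hE2]
    exact h4 g
  have h8 : A ≤ (p : ℝ) ^ (p * C) * (A * E) := by
    calc A ≤ ∑ g : ZMod p → Fin C → ZMod p,
      ∏ k : ZMod p × ZMod p, (((AA p).filter (fun T => ¬ Disjoint T (MM p C g k))).card : ℝ) := h3
      _ ≤ ∑ g : ZMod p → Fin C → ZMod p, A * E := Finset.sum_le_sum (fun g _ => h7 g)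
      _ = (p : ℝ) ^ (p * C) * (A * E) := by
        rw [Finset.sum_const, Finset.card_univ, nsmul_eq_mul, Fintype.card_fun, Fintype.card_fun, hc,
          Fintype.card_fin]
        push_cast
        rw [← pow_mul, mul_comm C p]
  have h9 : 1 ≤ (p : ℝ) ^ (p * C) * E := by
    have : A * 1 ≤ A * ((p : ℝ) ^ (p * C) * E) := by linarith
    exact le_of_mul_le_mul_left this hA0
  have h10 : (1 : ℝ) ≤ ((p : ℝ) ^ (2 * C) * (1 - δ) ^ p) ^ p := by
    calc (1 : ℝ) ≤ ((p : ℝ) ^ (p * C) * E) ^ 2 := one_le_pow₀ h9
      _ = _ := by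
        rw [mul_pow, hE2, mul_pow, ← pow_mul, ← pow_mul, ← pow_mul]
        congr 2
        ring
  by_contra hlt
  rw [not_le] at hlt
  have h11 : 0 ≤ (p : ℝ) ^ (2 * C) * (1 - δ) ^ p :=
    mul_nonneg (by positivity) (pow_nonneg (by linarith) _)
  exact absurd h10 (not_le.2 (pow_lt_one₀ h11 hlt hp0.ne'))

end

end Pool.Agent.Y162.BT
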