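import Mathlib
import Pool.Agent.H117R2.Entropy
import Pool.Agent.H117R2.Golden2

set_option autoImplicit false

/-!
# A balanced element in every family closed under unions and intersections
-/

namespace Pool.Agent.Y162.BE

open Finset Real Pool.Agent.H117R2 Pool.Agent.H117R2.Gold

variable {α : Type*} [Fintype α] [DecidableEq α]

/-- the part of the measure on sets avoiding `g` -/
noncomputable def lo (g : α) (μ : Finset α → ℝ) : Finset α → ℝ := fun S => if g ∈ S then 0 else μ S

/-- the part of the measure on sets containing `g` -/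
noncomputable def hi (g : α) (μ : Finset α → ℝ) : Finset α → ℝ := fun S => if g ∈ S then μ S else 0

/-- total mass -/
noncomputable def mass (μ : Finset α → ℝ) : ℝ := ∑ S, μ S

/-- law of the union of two independent sets -/
noncomputable def cv (μ ν : Finset α → ℝ) : Finset α → ℝ :=
  fun S => ∑ X, ∑ Y, if X ∪ Y = S then μ X * ν Y else 0

theorem mass_lo_hi (g : α) (μ : Finset α → ℝ) : mass (lo g μ) + mass (hi g μ) = mass μ := by
  unfold mass lo hi
  rw [← Finset.sum_add_distrib]
  apply Finset.sum_congr rfl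
  intro S _
  split_ifs <;> simp

theorem mass_nonneg {μ : Finset α → ℝ} (h : ∀ S, 0 ≤ μ S) : 0 ≤ mass μ :=
  Finset.sum_nonneg (fun S _ => h S)

theorem lo_nonneg {μ : Finset α → ℝ} (h : ∀ S, 0 ≤ μ S) (g : α) : ∀ S, 0 ≤ lo g μ S := by
  intro S; unfold lo; split_ifs
  · exact le_rfl
  · exact h S

theorem hi_nonneg {μ : Finset α → ℝ} (h : ∀ S, 0 ≤ μ S) (g : α) : ∀ S, 0 ≤ hi g μ S := by
  intro S; unfold hi; split_ifs
  · exact h S
  · exact le_rfl

theorem cv_nonneg {μ ν : Finset α → ℝ} (h : ∀ S, 0 ≤ μ S) (h' : ∀ S, 0 ≤ ν S) :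
    ∀ S, 0 ≤ cv μ ν S := by
  intro S
  unfold cv
  refine Finset.sum_nonneg (fun X _ => Finset.sum_nonneg (fun Y _ => ?_))
  split_ifs
  · exact mul_nonneg (h X) (h' Y)
  · exact le_rfl

theorem mass_cv (μ ν : Finset α → ℝ) : mass (cv μ ν) = mass μ * mass ν := by
  unfold mass cv
  rw [Finset.sum_comm, Finset.sum_mul]
  apply Finset.sum_congr rfl
  intro X _
  rw [Finset.sum_comm, Finset.mul_sum]
  apply Finset.sum_congr rfl
  intro Y _
  rw [Finset.sum_ite_eq]
  simp

theorem lo_cv (g : α) (μ ν : Finset α → ℝ) : lo g (cv μ ν) = cv (lo g μ) (lo g ν) := by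
  funext S
  have h : ∀ X Y : Finset α, (if X ∪ Y = S then lo g μ X * lo g ν Y else 0) =
      if g ∈ S then 0 else (if X ∪ Y = S then μ X * ν Y else 0) := by
    intro X Y
    unfold lo
    by_cases hS : X ∪ Y = S
    · subst hS
      by_cases h1 : g ∈ X <;> by_cases h2 : g ∈ Y <;> simp [h1, h2]
    · simp [hS]
  unfold cv
  simp only [h]
  unfold lo
  by_cases hg : g ∈ S
  · simp [hg]
  · simp [hg]

theorem hi_cv (g : α) (μ ν : Finset α → ℝ) : hi g (cv μ ν) = fun S => cv (lo g μ) (hi g ν) S +
    (cv (hi g μ) (lo g ν) S + cv (hi g μ) (hi g ν) S) := by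
  funext S
  have h : ∀ X Y : Finset α, (if X ∪ Y = S then lo g μ X * hi g ν Y else 0) +
      ((if X ∪ Y = S then hi g μ X * lo g ν Y else 0) +
        (if X ∪ Y = S then hi g μ X * hi g ν Y else 0)) =
      if g ∈ S then (if X ∪ Y = S then μ X * ν Y else 0) else 0 := by
    intro X Y
    unfold lo hi
    by_cases hS : X ∪ Y = S
    · subst hS
      by_cases h1 : g ∈ X <;> by_cases h2 : g ∈ Y <;> simp [h1, h2]
    · simp [hS]
  unfold cv
  simp only [← Finset.sum_add_distrib, h]
  unfold hi
  by_cases hg : g ∈ S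
  · simp [hg]
  · simp [hg]

/-- weighted chain rule functional -/
noncomputable def K : List α → (α → ℝ) → (Finset α → ℝ) → ℝ
  | [], _, _ => 0
  | g :: l, a, μ => a g * E2 (mass (lo g μ)) (mass (hi g μ)) + (K l a (lo g μ) + K l a (hi g μ))

theorem K_add (l : List α) (a b : α → ℝ) (μ : Finset α → ℝ) :
    K l (fun g => a g + b g) μ = K l a μ + K l b μ := by
  induction l generalizing μ with
  | nil => simp [K]
  | cons g l ih =>
    simp only [K]
    rw [ih, ih]
    ring

theorem K_le (l : List α) (a : α → ℝ) (A : ℝ) (hA : ∀ g, A ≤ a g) (μ : Finset α → ℝ)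
    (hμ : ∀ S, 0 ≤ μ S) : A * K l (fun _ => 1) μ ≤ K l a μ := by
  induction l generalizing μ with
  | nil => simp [K]
  | cons g l ih =>
    simp only [K]
    have h1 := ih (lo g μ) (lo_nonneg hμ g)
    have h2 := ih (hi g μ) (hi_nonneg hμ g)
    have h3 : 0 ≤ E2 (mass (lo g μ)) (mass (hi g μ)) :=
      E2_nonneg (mass_nonneg (lo_nonneg hμ g)) (mass_nonneg (hi_nonneg hμ g))
    have h4 := mul_le_mul_of_nonneg_right (hA g) h3
    linarith

theorem ent_split' (g : α) (μ : Finset α → ℝ) : ent univ μ = E2 (mass (lo g μ)) (mass (hi g μ)) +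
    ent univ (lo g μ) + ent univ (hi g μ) := by
  have := ent_split (univ : Finset (Finset α)) μ (fun S => g ∈ S)
  exact this

theorem chain (l : List α) (μ : Finset α → ℝ)
    (hsep : ∀ S T, μ S ≠ 0 → μ T ≠ 0 → (∀ g ∈ l, g ∈ S ↔ g ∈ T) → S = T) :
    ent univ μ = K l (fun _ => 1) μ := by
  induction l generalizing μ with
  | nil =>
    simp only [K]
    by_cases h : ∃ S, μ S ≠ 0
    · obtain ⟨S, hS⟩ := h
      have h0 : ∀ T, T ≠ S → μ T = 0 := by
        intro T hT
        by_contra hne
        exact hT (hsep T S hne hS (by simp))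
      unfold ent
      rw [Finset.sum_eq_single S (fun T _ hT => by rw [h0 T hT, negMulLog_zero])
        (fun h => absurd (Finset.mem_univ _) h),
        Finset.sum_eq_single S (fun T _ hT => h0 T hT) (fun h => absurd (Finset.mem_univ _) h), sub_self]
    · push Not at h
      rw [ent_congr (g := fun _ => 0) (fun S _ => h S), ent_zero]
  | cons g l ih =>
    simp only [K]
    rw [ent_split' g μ, ih (lo g μ), ih (hi g μ)]
    · ring
    · intro S T hS hT h
      unfold hi at hS hT
      have hS' : g ∈ S ∧ μ S ≠ 0 := by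
        by_cases hg : g ∈ S
        · exact ⟨hg, by simpa [hg] using hS⟩
        · simp [hg] at hS
      have hT' : g ∈ T ∧ μ T ≠ 0 := by
        by_cases hg : g ∈ T
        · exact ⟨hg, by simpa [hg] using hT⟩
        · simp [hg] at hT
      refine hsep S T hS'.2 hT'.2 ?_
      intro x hx
      rcases List.mem_cons.mp hx with rfl | hx
      · exact ⟨fun _ => hT'.1, fun _ => hS'.1⟩
      · exact h x hx
    · intro S T hS hT h
      unfold lo at hS hT
      have hS' : g ∉ S ∧ μ S ≠ 0 := by
        by_cases hg : g ∈ S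
        · simp [hg] at hS
        · exact ⟨hg, by simpa [hg] using hS⟩
      have hT' : g ∉ T ∧ μ T ≠ 0 := by
        by_cases hg : g ∈ T
        · simp [hg] at hT
        · exact ⟨hg, by simpa [hg] using hT⟩
      refine hsep S T hS'.2 hT'.2 ?_
      intro x hx
      rcases List.mem_cons.mp hx with rfl | hx
      · exact ⟨fun h' => absurd h' hS'.1, fun h' => absurd h' hT'.1⟩
      · exact h x hx

theorem mass_lo_split (g h : α) (ν : Finset α → ℝ) :
    mass (lo h ν) = mass (lo h (lo g ν)) + mass (lo h (hi g ν)) := by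
  unfold mass
  rw [← Finset.sum_add_distrib]
  apply Finset.sum_congr rfl
  intro S _
  unfold lo hi
  by_cases h1 : g ∈ S <;> by_cases h2 : h ∈ S <;> simp [h1, h2]

theorem main_ineq' {c : ℝ} (hTP : TwoPoint c 0 (fun _ _ => 0)) (l : List α)
    (μ ν : Finset α → ℝ) (hμ : ∀ S, 0 ≤ μ S) (hν : ∀ S, 0 ≤ ν S) :
    c * (K l (fun g => mass (lo g ν)) μ + K l (fun g => mass (lo g μ)) ν) ≤ ent univ (cv μ ν) := by
  induction l generalizing μ ν with
  | nil =>
    simp only [K, add_zero, mul_zero]
    exact ent_nonneg fun S _ => cv_nonneg hμ hν S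
  | cons g l ih =>
    have a0 := lo_nonneg hμ g
    have a1 := hi_nonneg hμ g
    have b0 := lo_nonneg hν g
    have b1 := hi_nonneg hν g
    have h00 := ih (lo g μ) (lo g ν) a0 b0
    have h01 := ih (lo g μ) (hi g ν) a0 b1
    have h10 := ih (hi g μ) (lo g ν) a1 b0
    have h11 := ih (hi g μ) (hi g ν) a1 b1
    have hs := ent_split' g (cv μ ν)
    have hadd1 := ent_add (U := univ) (f := cv (lo g μ) (hi g ν))
      (g := fun S => cv (hi g μ) (lo g ν) S + cv (hi g μ) (hi g ν) S)
      (fun S _ => cv_nonneg a0 b1 S) (fun S _ => add_nonneg (cv_nonneg a1 b0 S) (cv_nonneg a1 b1 S))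
    have hadd2 := ent_add (U := univ) (f := cv (hi g μ) (lo g ν)) (g := cv (hi g μ) (hi g ν))
      (fun S _ => cv_nonneg a1 b0 S) (fun S _ => cv_nonneg a1 b1 S)
    have hm : mass (hi g (cv μ ν)) = mass (lo g μ) * mass (hi g ν) +
        (mass (hi g μ) * mass (lo g ν) + mass (hi g μ) * mass (hi g ν)) := by
      rw [hi_cv, ← mass_cv, ← mass_cv, ← mass_cv]
      unfold mass
      rw [← Finset.sum_add_distrib, ← Finset.sum_add_distrib]
    rw [hm, lo_cv, hi_cv, mass_cv] at hs
    have hTP' := hTP (mass (lo g μ)) (mass (hi g μ)) (mass (lo g ν)) (mass (hi g ν))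
      (mass_nonneg a0) (mass_nonneg a1) (mass_nonneg b0) (mass_nonneg b1)
    have e1 : ∀ ρ : Finset α → ℝ, K l (fun h => mass (lo h ν)) ρ =
        K l (fun h => mass (lo h (lo g ν))) ρ + K l (fun h => mass (lo h (hi g ν))) ρ := by
      intro ρ
      rw [← K_add]
      congr 1
      funext h
      exact mass_lo_split g h ν
    have e2 : ∀ ρ : Finset α → ℝ, K l (fun h => mass (lo h μ)) ρ =
        K l (fun h => mass (lo h (lo g μ))) ρ + K l (fun h => mass (lo h (hi g μ))) ρ := by
      intro ρ
      rw [← K_add]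
      congr 1
      funext h
      exact mass_lo_split g h μ
    simp only [K]
    rw [e1 (lo g μ), e1 (hi g μ), e2 (lo g ν), e2 (hi g ν), hs]
    simp only [mul_zero, zero_mul, sub_zero] at hTP'
    linarith

/-- gain from one doubling -/
theorem gain {ε : ℝ} (μ : Finset α → ℝ) (hμ : ∀ S, 0 ≤ μ S) (h1 : mass μ = 1)
    (hε : ∀ g, mass (hi g μ) ≤ ε) : q * (1 - ε) * ent univ μ ≤ ent univ (cv μ μ) := by
  have hq : 0 < q := by have := q_lb; linarith
  have h2 := main_ineq' (twoPointGold (fun _ _ => 0)) (univ : Finset α).toList μ μ hμ hμ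
  have h3 := K_le (univ : Finset α).toList (fun g => mass (lo g μ)) (1 - ε) (by
    intro g
    have := mass_lo_hi g μ
    have := hε g
    linarith) μ hμ
  have h4 := chain (univ : Finset α).toList μ (by
    intro S T _ _ h
    ext g
    exact h g (by simp))
  rw [h4]
  have h5 : q * ((1 - ε) * K (univ : Finset α).toList (fun _ => 1) μ) ≤
      q * K (univ : Finset α).toList (fun g => mass (lo g μ)) μ := mul_le_mul_of_nonneg_left h3 hq.le
  linarith

theorem marg_cv {ε : ℝ} (μ : Finset α → ℝ) (hμ : ∀ S, 0 ≤ μ S) (h1 : mass μ = 1)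
    (hε : ∀ g, mass (hi g μ) ≤ ε) (g : α) : mass (hi g (cv μ μ)) ≤ 2 * ε := by
  have hm : mass (hi g (cv μ μ)) = mass (lo g μ) * mass (hi g μ) +
      (mass (hi g μ) * mass (lo g μ) + mass (hi g μ) * mass (hi g μ)) := by
    rw [hi_cv, ← mass_cv, ← mass_cv, ← mass_cv]
    unfold mass
    rw [← Finset.sum_add_distrib, ← Finset.sum_add_distrib]
  have h2 := mass_lo_hi g μ
  have h3 := mass_nonneg (lo_nonneg hμ g)
  have h4 := mass_nonneg (hi_nonneg hμ g)
  have h5 := hε g
  have h6 : mass (lo g μ) = 1 - mass (hi g μ) := by linarith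
  rw [hm, h6]
  nlinarith

/-- entropy bound for a measure with small marginals on a union-closed family -/
theorem ent_small {ε : ℝ} (hε1 : 2 * ε ≤ 1) (U : Finset (Finset α))
    (hU : ∀ X ∈ U, ∀ Y ∈ U, X ∪ Y ∈ U) (μ : Finset α → ℝ) (hμ : ∀ S, 0 ≤ μ S) (h1 : mass μ = 1)
    (hsupp : ∀ S, S ∉ U → μ S = 0) (hε : ∀ g, mass (hi g μ) ≤ ε) :
    (q * (1 - 2 * ε)) * (q * (1 - ε)) * ent univ μ ≤ log U.card := by
  have hq : 0 < q := by have := q_lb; linarith
  have hsc : ∀ ρ : Finset α → ℝ, (∀ S, S ∉ U → ρ S = 0) → ∀ S, S ∉ U → cv ρ ρ S = 0 := by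
    intro ρ hρ S hS
    unfold cv
    refine Finset.sum_eq_zero (fun X _ => Finset.sum_eq_zero (fun Y _ => ?_))
    split_ifs with h
    · by_cases hX : X ∈ U
      · by_cases hY : Y ∈ U
        · exact absurd (h ▸ hU X hX Y hY) hS
        · rw [hρ Y hY, mul_zero]
      · rw [hρ X hX, zero_mul]
    · rfl
  have hn2 := cv_nonneg hμ hμ
  have hn4 := cv_nonneg hn2 hn2
  have g1 := gain μ hμ h1 hε
  have m2 : mass (cv μ μ) = 1 := by rw [mass_cv, h1, one_mul]
  have g2 := gain (cv μ μ) hn2 m2 (marg_cv μ hμ h1 hε)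
  have m4 : mass (cv (cv μ μ) (cv μ μ)) = 1 := by rw [mass_cv, m2, one_mul]
  have s4 := hsc (cv μ μ) (hsc μ hsupp)
  have hle := ent_le (U := U) (f := cv (cv μ μ) (cv μ μ)) (fun S _ => hn4 S)
  have hs1 : ∑ i ∈ U, cv (cv μ μ) (cv μ μ) i = 1 := by
    rw [← m4]
    unfold mass
    exact Finset.sum_subset (Finset.subset_univ U) (fun S _ hS => s4 S hS)
  have hs2 : ent univ (cv (cv μ μ) (cv μ μ)) = ent U (cv (cv μ μ) (cv μ μ)) := by
    unfold ent
    rw [← Finset.sum_subset (Finset.subset_univ U) (fun S _ hS => s4 S hS),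
      ← Finset.sum_subset (Finset.subset_univ U) (fun S _ hS => by rw [s4 S hS, negMulLog_zero])]
  rw [hs1, one_mul, ← hs2] at hle
  refine le_trans ?_ hle
  refine le_trans ?_ g2
  rw [mul_assoc]
  apply mul_le_mul_of_nonneg_left g1
  apply mul_nonneg hq.le
  linarith

/-- push forward of the uniform measure on `J` -/
noncomputable def push (J : Finset (Finset α)) (φ : Finset α → Finset α) : Finset α → ℝ :=
  fun S => ((J.filter (fun I => φ I = S)).card : ℝ) / J.card

theorem push_nonneg (J : Finset (Finset α)) (φ : Finset α → Finset α) : ∀ S, 0 ≤ push J φ S := by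
  intro S; unfold push; positivity

theorem push_zero (J : Finset (Finset α)) (φ : Finset α → Finset α) {S : Finset α}
    (hS : S ∉ J.image φ) : push J φ S = 0 := by
  have h : J.filter (fun I => φ I = S) = ∅ := by
    apply Finset.filter_eq_empty_iff.2
    intro I hI h
    apply hS
    rw [← h]
    exact Finset.mem_image_of_mem _ hI
  unfold push
  rw [h]
  simp

/-- change of variables -/
theorem push_sum (J : Finset (Finset α)) (φ : Finset α → Finset α) (F : Finset α → ℝ) :
    ∑ S, push J φ S * F S = (∑ I ∈ J, F (φ I)) / J.card := by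
  have h1 : ∀ S, push J φ S * F S = (∑ I ∈ J.filter (fun I => φ I = S), F (φ I)) / J.card := by
    intro S
    have : ∑ I ∈ J.filter (fun I => φ I = S), F (φ I) = ∑ I ∈ J.filter (fun I => φ I = S), F S := by
      apply Finset.sum_congr rfl
      intro I hI
      rw [(Finset.mem_filter.1 hI).2]
    rw [this, Finset.sum_const, nsmul_eq_mul]
    unfold push
    ring
  rw [Finset.sum_congr rfl (fun S _ => h1 S), ← Finset.sum_div]
  congr 1
  exact Finset.sum_fiberwise J φ (fun I => F (φ I))

theorem mass_push {J : Finset (Finset α)} (hJ : 0 < J.card) (φ : Finset α → Finset α) :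
    mass (push J φ) = 1 := by
  have h := push_sum J φ (fun _ => 1)
  simp only [mul_one] at h
  unfold mass
  rw [h, Finset.sum_const, nsmul_eq_mul, mul_one]
  exact div_self (by exact_mod_cast hJ.ne')

theorem marg_push {J : Finset (Finset α)} (φ : Finset α → Finset α) (g : α) :
    mass (hi g (push J φ)) = ((J.filter (fun I => g ∈ φ I)).card : ℝ) / J.card := by
  have h := push_sum J φ (fun S => if g ∈ S then 1 else 0)
  have h2 : mass (hi g (push J φ)) = ∑ S, push J φ S * (if g ∈ S then 1 else 0) := by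
    unfold mass hi
    apply Finset.sum_congr rfl
    intro S _
    split_ifs <;> simp
  rw [h2, h, Finset.card_filter]
  push_cast
  rfl

theorem push_pos {J : Finset (Finset α)} (φ : Finset α → Finset α) {I : Finset α} (hI : I ∈ J) :
    0 < push J φ (φ I) := by
  unfold push
  have h1 : 0 < J.card := Finset.card_pos.2 ⟨I, hI⟩
  have h2 : 0 < (J.filter (fun I' => φ I' = φ I)).card :=
    Finset.card_pos.2 ⟨I, Finset.mem_filter.2 ⟨hI, rfl⟩⟩
  positivity

theorem ent_push {J : Finset (Finset α)} (hJ : 0 < J.card) (φ : Finset α → Finset α) :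
    ent univ (push J φ) = - (∑ I ∈ J, log (push J φ (φ I))) / J.card := by
  have h := push_sum J φ (fun S => - log (push J φ S))
  have h1 := mass_push hJ φ
  unfold mass at h1
  unfold ent
  rw [h1, negMulLog_one, sub_zero]
  rw [Finset.sum_neg_distrib] at h
  rw [← h]
  apply Finset.sum_congr rfl
  intro S _
  unfold negMulLog
  ring

/-- subadditivity -/
theorem subadd {J : Finset (Finset α)} (hJ : 0 < J.card) (φ ψ : Finset α → Finset α)
    (hinj : ∀ I ∈ J, ∀ I' ∈ J, φ I = φ I' → ψ I = ψ I' → I = I') :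
    log J.card ≤ ent univ (push J φ) + ent univ (push J ψ) := by
  have hJ' : (0 : ℝ) < J.card := by exact_mod_cast hJ
  rw [ent_push hJ, ent_push hJ, ← add_div, le_div_iff₀ hJ']
  have key : ∀ I ∈ J, log J.card + log (push J φ (φ I)) + log (push J ψ (ψ I)) ≤
      J.card * (push J φ (φ I) * push J ψ (ψ I)) - 1 := by
    intro I hI
    have h1 := push_pos φ hI
    have h2 := push_pos ψ hI
    rw [← log_mul hJ'.ne' h1.ne', ← log_mul (mul_pos hJ' h1).ne' h2.ne']
    have := log_le_sub_one_of_pos (mul_pos (mul_pos hJ' h1) h2)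
    linarith
  have h3 := Finset.sum_le_sum key
  rw [Finset.sum_add_distrib, Finset.sum_add_distrib, Finset.sum_sub_distrib, Finset.sum_const,
    Finset.sum_const, nsmul_eq_mul, nsmul_eq_mul, mul_one, ← Finset.mul_sum] at h3
  have h4 : ∑ I ∈ J, push J φ (φ I) * push J ψ (ψ I) ≤ 1 := by
    calc ∑ I ∈ J, push J φ (φ I) * push J ψ (ψ I)
        = ∑ p ∈ J.image (fun I => (φ I, ψ I)), push J φ p.1 * push J ψ p.2 := by
          rw [Finset.sum_image]
          intro I hI I' hI' h
          exact hinj I hI I' hI' (Prod.mk.inj h).1 (Prod.mk.inj h).2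
      _ ≤ ∑ p : Finset α × Finset α, push J φ p.1 * push J ψ p.2 :=
          Finset.sum_le_sum_of_subset_of_nonneg (Finset.subset_univ _)
            (fun p _ _ => mul_nonneg (push_nonneg J φ _) (push_nonneg J ψ _))
      _ = mass (push J φ) * mass (push J ψ) := by
          rw [Fintype.sum_prod_type]
          unfold mass
          rw [Finset.sum_mul_sum]
      _ = 1 := by rw [mass_push hJ, mass_push hJ, one_mul]
  have h5 : (J.card : ℝ) * ∑ I ∈ J, push J φ (φ I) * push J ψ (ψ I) ≤ J.card * 1 :=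
    mul_le_mul_of_nonneg_left h4 hJ'.le
  linarith

/-- **Balanced element.** In every family of sets with at least two members, closed under unions and
intersections, some element is in at least 1/20 and at most 19/20 of the members. -/
theorem balanced (J : Finset (Finset α)) (hJ : 2 ≤ J.card)
    (hun : ∀ X ∈ J, ∀ Y ∈ J, X ∪ Y ∈ J) (hint : ∀ X ∈ J, ∀ Y ∈ J, X ∩ Y ∈ J) :
    ∃ x : α, (J.card : ℝ) / 20 ≤ ((J.filter (fun I => x ∈ I)).card : ℝ) ∧
      ((J.filter (fun I => x ∈ I)).card : ℝ) ≤ (1 - 1 / 20) * J.card := by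
  by_contra hcon
  push Not at hcon
  have hJ0 : 0 < J.card := by omega
  have hJ' : (0 : ℝ) < J.card := by exact_mod_cast hJ0
  set X : Finset α := univ.filter (fun x => ((J.filter (fun I => x ∈ I)).card : ℝ) < J.card / 20) with hX
  have hlog : 0 < log J.card := log_pos (by exact_mod_cast (by omega : 1 < J.card))
  have hcardN : ∀ g : α, ((J.filter (fun I => g ∈ I)).card : ℝ) +
      ((J.filter (fun I => ¬ g ∈ I)).card : ℝ) = J.card := by
    intro g
    exact_mod_cast Finset.card_filter_add_card_filter_not (s := J) (p := fun I => g ∈ I)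
  -- the two projections
  have hA := ent_small (ε := 1 / 20) (by norm_num) (J.image (fun I => I ∩ X)) (by
    intro S hS T hT
    obtain ⟨I, hI, rfl⟩ := Finset.mem_image.1 hS
    obtain ⟨I', hI', rfl⟩ := Finset.mem_image.1 hT
    rw [← Finset.union_inter_distrib_right]
    exact Finset.mem_image_of_mem _ (hun I hI I' hI')) (push J (fun I => I ∩ X)) (push_nonneg _ _)
    (mass_push hJ0 _) (fun S hS => push_zero J _ hS) (by
    intro g
    rw [marg_push, div_le_iff₀ hJ']
    by_cases hg : g ∈ X
    · have h1 := (Finset.mem_filter.1 hg).2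
      have h2 : J.filter (fun I => g ∈ I ∩ X) = J.filter (fun I => g ∈ I) := by
        apply Finset.filter_congr
        intro I _
        simp [hg]
      rw [h2]
      linarith
    · have h2 : J.filter (fun I => g ∈ I ∩ X) = ∅ := by
        apply Finset.filter_eq_empty_iff.2
        intro I _
        simp [hg]
      rw [h2]
      simp)
  have hB := ent_small (ε := 1 / 20) (by norm_num) (J.image (fun I => Xᶜ \ I)) (by
    intro S hS T hT
    obtain ⟨I, hI, rfl⟩ := Finset.mem_image.1 hS
    obtain ⟨I', hI', rfl⟩ := Finset.mem_image.1 hT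
    have : Xᶜ \ I ∪ Xᶜ \ I' = Xᶜ \ (I ∩ I') := by
      ext x; simp only [Finset.mem_union, Finset.mem_sdiff, Finset.mem_inter]; tauto
    rw [this]
    exact Finset.mem_image_of_mem (fun I => Xᶜ \ I) (hint I hI I' hI')) (push J (fun I => Xᶜ \ I))
    (push_nonneg _ _) (mass_push hJ0 _) (fun S hS => push_zero J _ hS) (by
    intro g
    rw [marg_push, div_le_iff₀ hJ']
    by_cases hg : g ∈ X
    · have h2 : J.filter (fun I => g ∈ Xᶜ \ I) = ∅ := by
        apply Finset.filter_eq_empty_iff.2
        intro I _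
        simp [hg]
      rw [h2]
      simp
    · have h0 : (J.card : ℝ) / 20 ≤ ((J.filter (fun I => g ∈ I)).card : ℝ) := by
        by_contra h
        exact hg (Finset.mem_filter.2 ⟨Finset.mem_univ _, not_le.1 h⟩)
      have h1 := hcon g h0
      have h2 : J.filter (fun I => g ∈ Xᶜ \ I) = J.filter (fun I => ¬ g ∈ I) := by
        apply Finset.filter_congr
        intro I _
        simp [hg]
      rw [h2]
      have h3 := hcardN g
      linarith)
  have hsub := subadd hJ0 (fun I => I ∩ X) (fun I => Xᶜ \ I) (by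
    intro I _ I' _ h1 h2
    ext x
    by_cases hx : x ∈ X
    · have := Finset.ext_iff.1 h1 x
      simpa [hx] using this
    · have := Finset.ext_iff.1 h2 x
      simpa [hx, not_iff_not] using this)
  have hcA : log ((J.image (fun I => I ∩ X)).card : ℝ) ≤ log J.card := by
    apply log_le_log
    · exact_mod_cast Finset.card_pos.2 ((Finset.card_pos.1 hJ0).image _)
    · exact_mod_cast Finset.card_image_le
  have hcB : log ((J.image (fun I => Xᶜ \ I)).card : ℝ) ≤ log J.card := by
    apply log_le_log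
    · exact_mod_cast Finset.card_pos.2 ((Finset.card_pos.1 hJ0).image _)
    · exact_mod_cast Finset.card_image_le
  have hq : (2.1 : ℝ) ≤ (q * (1 - 2 * (1 / 20))) * (q * (1 - 1 / 20)) := by
    have h1 := q_sq
    have h2 := q_lb
    nlinarith
  have hnA := ent_nonneg (U := univ) (f := push J (fun I => I ∩ X)) (fun S _ => push_nonneg _ _ S)
  have hnB := ent_nonneg (U := univ) (f := push J (fun I => Xᶜ \ I)) (fun S _ => push_nonneg _ _ S)
  have h1 := mul_le_mul_of_nonneg_right hq hnA
  have h2 := mul_le_mul_of_nonneg_right hq hnB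
  linarith

end Pool.Agent.Y162.BE
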